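import Pool.Agent.P.MP_72c4d1_al.SubMain

open Pool.Agent.P.MP_72c4d1_al

namespace Pool.Agent.Results.MP_72c4d1_al.AllAffineGroups

theorem result (n : ℕ) (hn : Odd n) (U : Subgroup (ZMod n)ˣ) :
    (∃ σ : Equiv.Perm (ZMod n), ¬ IsAffine σ ∧
      (∃ N : ℕ, 2 ≤ N ∧ ∀ l : List (Equiv.Perm (ZMod n)), l.length = N →
        (∀ τ ∈ l, τ ∈ cosetOf U σ) → l.prod ∈ cosetOf U σ) ∧
      ∀ τ ∈ cosetOf U σ, Panmagic τ) ↔
    (∃ p : ℕ, p.Prime ∧ p ^ 2 ∣ n ∧ (∃ u ∈ U, (u : ZMod n) = 1 + (n / p : ℕ)) ∧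
      ∀ u ∈ U, (u : ZMod n).val ≡ 1 [MOD p]) ∧
    ∃ a : (ZMod n)ˣ, ∀ u ∈ U, IsUnit ((a : ZMod n) * u + 1) ∧ IsUnit ((a : ZMod n) * u - 1) :=
  classification n hn U

/-- The posed instance: a group `U` that contains `-1`, as the one of the lifted dihedral group
does, has no non-affine panmagic coset closed under `N`-fold products. -/
theorem posed (n : ℕ) (hn : Odd n) (U : Subgroup (ZMod n)ˣ) (hU : -1 ∈ U) :
    ¬ ∃ σ : Equiv.Perm (ZMod n), ¬ IsAffine σ ∧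
      (∃ N : ℕ, 2 ≤ N ∧ ∀ l : List (Equiv.Perm (ZMod n)), l.length = N →
        (∀ τ ∈ l, τ ∈ cosetOf U σ) → l.prod ∈ cosetOf U σ) ∧
      ∀ τ ∈ cosetOf U σ, Panmagic τ := by
  intro h
  obtain ⟨⟨p, hp, hpn, -, h1⟩, -⟩ := (result n hn U).1 h
  have : NeZero n := ⟨fun h => by simp [h] at hn⟩
  have hd : p ∣ n := (dvd_pow_self p two_ne_zero).trans hpn
  have h2 := (cast_eq_iff hd _ 1).2 (h1 _ hU)
  rw [Units.val_neg, Units.val_one, map_neg, map_one] at h2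
  have h3 : ((2 : ℕ) : ZMod p) = 0 := by push_cast at h2 ⊢; linear_combination -h2
  rw [ZMod.natCast_eq_zero_iff, Nat.prime_dvd_prime_iff_eq hp Nat.prime_two] at h3
  exact (Nat.not_even_iff_odd.2 hn) (even_iff_two_dvd.2 (h3 ▸ hd))

/-- The question as posed, from `posed`. -/
theorem posed_literal : ¬ ∃ (n : ℕ) (σ : Equiv.Perm (ZMod n)),
    5 ≤ n ∧ Nat.gcd n 6 = 1 ∧ ¬ IsAffine σ ∧
    (∃ N : ℕ, 2 ≤ N ∧ ∀ l : List (Equiv.Perm (ZMod n)), l.length = N →
      (∀ τ ∈ l, τ ∈ coset σ) → l.prod ∈ coset σ) ∧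
    ∀ τ ∈ coset σ, Panmagic τ := by
  rintro ⟨n, σ, hn, hg, h⟩
  have : NeZero n := ⟨by omega⟩
  have hodd : Odd n := Nat.coprime_two_right.1 (Nat.Coprime.coprime_dvd_right (by norm_num) hg)
  let U : Subgroup (ZMod n)ˣ := ((powMonoidHom 2).comp (Units.map (red n).toMonoidHom)).ker
  have hU : ∀ u : (ZMod n)ˣ, u ∈ U ↔ red n u ^ 2 = 1 := fun u => by
    simp [U, MonoidHom.mem_ker, Units.ext_iff]
  have e : coset σ = cosetOf U σ := Set.ext fun τ => by
    rw [mem_cosetOf]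
    refine exists_congr fun π => and_congr_left' ((mem_iff π).trans ?_)
    exact ⟨fun ⟨u, b, h1, h2⟩ => ⟨u, (hU u).2 h1, b, h2⟩,
      fun ⟨u, h1, b, h2⟩ => ⟨u, b, (hU u).1 h1, h2⟩⟩
  exact posed n hodd U ((hU _).2 (by simp)) ⟨σ, e ▸ h⟩

/-- The other side: for the units that are `1` modulo the radical such cosets exist. -/
theorem sharp (n : ℕ) (hg : Nat.gcd n 6 = 1) (hsq : ¬ Squarefree n) :
    ∃ σ : Equiv.Perm (ZMod n), ¬ IsAffine σ ∧
      (∃ N : ℕ, 2 ≤ N ∧ ∀ l : List (Equiv.Perm (ZMod n)), l.length = N →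
        (∀ τ ∈ l, τ ∈ cosetOf (Units.map (red n).toMonoidHom).ker σ) →
          l.prod ∈ cosetOf (Units.map (red n).toMonoidHom).ker σ) ∧
      ∀ τ ∈ cosetOf (Units.map (red n).toMonoidHom).ker σ, Panmagic τ := by
  have : NeZero n := ⟨fun h => by simp [h] at hg⟩
  have hodd : Odd n := Nat.coprime_two_right.1 (Nat.Coprime.coprime_dvd_right (by norm_num) hg)
  have hU : ∀ u : (ZMod n)ˣ, u ∈ (Units.map (red n).toMonoidHom).ker ↔ red n u = 1 := fun u => by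
    simp [MonoidHom.mem_ker, Units.ext_iff]
  have hc : ∀ (q : ℕ) (_ : q.Prime) (hq : q ∣ n) (x : ZMod n), red n x = 1 →
      ZMod.castHom hq (ZMod q) x = 1 := fun q hq hqn x hx => by
    have hr : q ∣ rad n :=
      Finset.dvd_prod_of_mem _ (Nat.mem_primeFactors.2 ⟨hq, hqn, NeZero.ne n⟩)
    rw [← ZMod.castHom_comp hr (rad_dvd n), RingHom.comp_apply]
    exact (congrArg _ hx).trans (map_one _)
  have hsix : ∀ (q : ℕ) (_ : q.Prime) (_ : q ∣ n) (c : ℕ), c ∣ 6 → (c : ZMod q) ≠ 0 :=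
    fun q hq hqn c h6 h => hq.one_lt.ne' (Nat.eq_one_of_dvd_coprimes hg hqn
      (((ZMod.natCast_eq_zero_iff _ _).1 h).trans h6))
  obtain ⟨p, hp, hpn⟩ : ∃ p : ℕ, p.Prime ∧ p * p ∣ n := by
    simpa [Nat.squarefree_iff_prime_squarefree] using hsq
  have hd : p ∣ n := (dvd_mul_right p p).trans hpn
  have hr : red n (1 + (n / p : ℕ)) = 1 := by
    rw [map_add, map_one, map_natCast, add_eq_left, ZMod.natCast_eq_zero_iff]
    refine Finset.prod_primes_dvd _ (fun q hq => (Nat.prime_of_mem_primeFactors hq).prime)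
      fun q hq => ?_
    have h1 := Nat.dvd_of_mem_primeFactors hq
    rw [← Nat.mul_div_cancel' hd] at h1
    rcases (Nat.prime_of_mem_primeFactors hq).dvd_mul.1 h1 with h | h
    · rw [(Nat.prime_dvd_prime_iff_eq (Nat.prime_of_mem_primeFactors hq) hp).1 h]
      exact Nat.dvd_div_of_mul_dvd hpn
    · exact h
  have hu : IsUnit (1 + (n / p : ℕ) : ZMod n) := unit_of_primes fun q hq hqn => by
    rw [hc q hq hqn _ hr]
    simpa using hsix q hq hqn 1 (by norm_num)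
  have h2 : IsUnit (2 : ZMod n) := unit_of_primes fun q hq hqn => by
    rw [map_ofNat]
    simpa using hsix q hq hqn 2 (by norm_num)
  refine (result n hodd _).2 ⟨⟨p, hp, by rwa [sq], ⟨hu.unit, (hU _).2 hr, rfl⟩, fun u h => ?_⟩,
    h2.unit, fun u h => ⟨unit_of_primes fun q hq hqn => ?_, unit_of_primes fun q hq hqn => ?_⟩⟩
  · exact (cast_eq_iff hd _ 1).1 (by simpa using hc p hp hd _ ((hU u).1 h))
  · rw [h2.unit_spec, map_add, map_mul, hc q hq hqn _ ((hU u).1 h), map_one, map_ofNat]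
    have := hsix q hq hqn 3 (by norm_num)
    intro h0
    exact this (by push_cast; linear_combination h0)
  · rw [h2.unit_spec, map_sub, map_mul, hc q hq hqn _ ((hU u).1 h), map_one, map_ofNat]
    have := hsix q hq hqn 1 (by norm_num)
    intro h0
    exact this (by push_cast; linear_combination h0)

end Pool.Agent.Results.MP_72c4d1_al.AllAffineGroups
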