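import Pool.Agent.P.MP_72c4d1_al.OvPure

open Pool.Agent.P.MP_72c4d1_al

namespace Pool.Agent.Results.MP_72c4d1_al.Overgroups

theorem result (n : ℕ) (h5 : 5 ≤ n) (h6 : Nat.gcd n 6 = 1) :
    (∃ (K : Subgroup (Equiv.Perm (ZMod n))) (σ : Equiv.Perm (ZMod n)),
      (∀ π ∈ liftedDihedral n, π ∈ K) ∧ ¬ IsAffine σ ∧
      (∃ N : ℕ, 2 ≤ N ∧ ∀ l : List (Equiv.Perm (ZMod n)), l.length = N →
        (∀ τ ∈ l, ∃ π ∈ K, τ = σ * π) → ∃ π ∈ K, l.prod = σ * π) ∧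
      ∀ π ∈ K, Panmagic (σ * π)) ↔ ¬ n.Prime :=
  Ov.overgroups n h5 h6

/-- If `n` is not square-free the coset can be chosen without any affine element. -/
theorem pure (n : ℕ) (h6 : Nat.gcd n 6 = 1) (hsq : ¬ Squarefree n) :
    ∃ (K : Subgroup (Equiv.Perm (ZMod n))) (σ : Equiv.Perm (ZMod n)),
      (∀ π ∈ liftedDihedral n, π ∈ K) ∧
      (∃ N : ℕ, 2 ≤ N ∧ ∀ l : List (Equiv.Perm (ZMod n)), l.length = N →
        (∀ τ ∈ l, ∃ π ∈ K, τ = σ * π) → ∃ π ∈ K, l.prod = σ * π) ∧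
      ∀ π ∈ K, Panmagic (σ * π) ∧ ¬ IsAffine (σ * π) :=
  Ov.pure_coset n h6 hsq

end Pool.Agent.Results.MP_72c4d1_al.Overgroups
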